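import Pool.Agent.H52.O4.Comp

/-!
# Order four: faster copies of the computable functions (for the kernel)
-/

set_option autoImplicit false

namespace Pool.Agent.H52.O4F

open Pool.Agent.H52.O4

noncomputable def eqL (s : List ℕ) : List ℕ → Bool :=
  List.rec (motive := fun _ => List ℕ → Bool)
    (fun t => List.rec (motive := fun _ => Bool) true (fun _ _ _ => false) t)
    (fun a _ ih t => List.rec (motive := fun _ => Bool) false
      (fun b t' _ => Bool.rec false (ih t') (Nat.beq a b)) t) s

noncomputable def eqI (a b : ℤ) : Bool :=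
  Int.rec (motive := fun _ => Bool)
    (fun m => Int.rec (motive := fun _ => Bool) (fun n => Nat.beq m n) (fun _ => false) b)
    (fun m => Int.rec (motive := fun _ => Bool) (fun _ => false) (fun n => Nat.beq m n) b) a

noncomputable def eqV (s : List ℤ) : List ℤ → Bool :=
  List.rec (motive := fun _ => List ℤ → Bool)
    (fun t => List.rec (motive := fun _ => Bool) true (fun _ _ _ => false) t)
    (fun a _ ih t => List.rec (motive := fun _ => Bool) false
      (fun b t' _ => Bool.rec false (ih t') (eqI a b)) t) s

noncomputable def eqS (s : St) : St → Bool :=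
  List.rec (motive := fun _ => St → Bool)
    (fun t => List.rec (motive := fun _ => Bool) true (fun _ _ _ => false) t)
    (fun a _ ih t => List.rec (motive := fun _ => Bool) false
      (fun b t' _ => Bool.rec false (Bool.rec false (ih t') (eqV a.1 b.1)) (eqL a.2 b.2)) t) s

/-- Addition of integers. -/
noncomputable def addI (a b : ℤ) : ℤ :=
  Int.rec (motive := fun _ => ℤ)
    (fun m => Int.rec (motive := fun _ => ℤ) (fun n => Int.ofNat (Nat.add m n))
      (fun n => Bool.rec (Int.negSucc (Nat.sub n m)) (Int.ofNat (Nat.sub m (Nat.succ n)))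
        (Nat.ble (Nat.succ n) m)) b)
    (fun m => Int.rec (motive := fun _ => ℤ)
      (fun n => Bool.rec (Int.negSucc (Nat.sub m n)) (Int.ofNat (Nat.sub n (Nat.succ m)))
        (Nat.ble (Nat.succ m) n))
      (fun n => Int.negSucc (Nat.succ (Nat.add m n))) b) a

/-- Multiplication by a positive natural number. -/
noncomputable def mulI (c : ℕ) (a : ℤ) : ℤ :=
  Int.rec (motive := fun _ => ℤ) (fun m => Int.ofNat (Nat.mul c m))
    (fun m => Int.negSucc (Nat.pred (Nat.mul c (Nat.succ m)))) a

noncomputable def negI (a : ℤ) : ℤ :=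
  Int.rec (motive := fun _ => ℤ)
    (fun m => Bool.rec (Int.negSucc (Nat.pred m)) (Int.ofNat 0) (Nat.beq m 0))
    (fun m => Int.ofNat (Nat.succ m)) a

noncomputable def vaddF (a : List ℤ) : List ℤ → List ℤ :=
  List.rec (motive := fun _ => List ℤ → List ℤ)
    (fun b => b)
    (fun x a' ih b => List.rec (motive := fun _ => List ℤ) (x :: a')
      (fun y b' _ => addI x y :: ih b') b) a

noncomputable def vmulF (c : ℕ) (v : List ℤ) : List ℤ :=
  List.rec (motive := fun _ => List ℤ) [] (fun x _ ih => mulI c x :: ih) v

noncomputable def vnegF (v : List ℤ) : List ℤ :=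
  List.rec (motive := fun _ => List ℤ) [] (fun x _ ih => negI x :: ih) v

noncomputable def vzeroF (v : List ℤ) : Bool :=
  List.rec (motive := fun _ => Bool) true
    (fun x _ ih => Bool.rec false ih (eqI x (Int.ofNat 0))) v

noncomputable def addTF (c : List ℤ) (t : List ℕ) (S : St) : St :=
  List.rec (motive := fun _ => St) [(c, t)]
    (fun x S' ih => Bool.rec (x :: ih) ((vaddF c x.1, x.2) :: S') (eqL t x.2)) S

noncomputable def insF (n : ℕ) (t : List ℕ) : Option (Bool × List ℕ) :=
  List.rec (motive := fun _ => Option (Bool × List ℕ)) (some (false, [n]))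
    (fun m t ih => Bool.rec
      (Bool.rec
        (Option.rec (motive := fun _ => Option (Bool × List ℕ)) none
          (fun p => some (Bool.rec true false p.1, m :: p.2)) ih)
        none (Nat.beq n m))
      (some (false, n :: m :: t)) (Nat.ble (Nat.succ n) m)) t

noncomputable def xorF (a b : Bool) : Bool := Bool.rec b (Bool.rec true false b) a

noncomputable def nrmF (t : List ℕ) : Option (Bool × List ℕ) :=
  List.rec (motive := fun _ => Option (Bool × List ℕ)) (some (false, []))
    (fun n _ ih => Option.rec (motive := fun _ => Option (Bool × List ℕ)) none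
      (fun p => Option.rec (motive := fun _ => Option (Bool × List ℕ)) none
        (fun q => some (xorF p.1 q.1, q.2)) (insF n p.2)) ih) t

noncomputable def addUF (c : List ℤ) (t : List ℕ) (S : St) : St :=
  Option.rec (motive := fun _ => St) S
    (fun p => Bool.rec (addTF c p.2 S) (addTF (vnegF c) p.2 S) p.1) (nrmF t)

noncomputable def extF (n : ℕ) (L : List (ℕ × ℕ × List ℕ)) : List (ℕ × ℕ × List ℕ) :=
  List.rec (motive := fun _ => List (ℕ × ℕ × List ℕ)) []
    (fun x _ ih => (x.1, x.2.1, n :: x.2.2) :: (x.1, Nat.succ x.2.1, Nat.add n 8 :: x.2.2) ::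
      Bool.rec ((Nat.succ x.1, x.2.1, Nat.sub n 1 :: x.2.2) :: ih) ih (Nat.beq (Nat.mod n 8) 0)) L

noncomputable def enumF (t : List ℕ) : List (ℕ × ℕ × List ℕ) :=
  List.rec (motive := fun _ => List (ℕ × ℕ × List ℕ)) [(0, 0, [])] (fun n _ ih => extF n ih) t

/-- `wt j l i` by table for `l ≤ 4`. -/
noncomputable def addAllF (j : ℕ) (c : List ℤ) (L : List (ℕ × ℕ × List ℕ)) (S : St) : St :=
  List.rec (motive := fun _ => St) S
    (fun x _ ih => Bool.rec (addUF (vmulF (wt j x.1 x.2.1) c) x.2.2 ih) ih
      (Nat.beq (wt j x.1 x.2.1) 0)) L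

noncomputable def xopRawF (j : ℕ) (S : St) : St :=
  List.rec (motive := fun _ => St) [] (fun x _ ih => addAllF j x.1 (enumF x.2) ih) S

noncomputable def filF (S : St) : St :=
  List.rec (motive := fun _ => St) [] (fun x _ ih => Bool.rec (x :: ih) ih (vzeroF x.1)) S

noncomputable def xopF (j : ℕ) (S : St) : St := filF (xopRawF j S)

end Pool.Agent.H52.O4F
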