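import Pool.Agent.H52.O4F.Fast
import Mathlib.Tactic.Ring
import Mathlib.Tactic.Linarith

/-!
# Order four: the faster copies agree with the original functions
-/

set_option autoImplicit false

namespace Pool.Agent.H52.O4F

open Pool.Agent.H52.O4

theorem beq_iff (a b : ℕ) : Nat.beq a b = true ↔ a = b := by
  constructor
  · exact Nat.eq_of_beq_eq_true
  · rintro rfl; exact Nat.beq_refl a

theorem rec_and (x y : Bool) : (Bool.rec false x y : Bool) = (y && x) := by
  cases y <;> rfl

theorem eqL_cons (a : ℕ) (s : List ℕ) (b : ℕ) (t : List ℕ) :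
    eqL (a :: s) (b :: t) = Bool.rec false (eqL s t) (Nat.beq a b) := rfl

theorem eqL_iff : ∀ s t : List ℕ, eqL s t = true ↔ s = t
  | [], [] => by simp [eqL]
  | [], b :: t => by simp [eqL]
  | a :: s, [] => by simp [eqL]
  | a :: s, b :: t => by
    rw [eqL_cons, rec_and, Bool.and_eq_true, beq_iff, eqL_iff s t, List.cons.injEq]

theorem eqI_iff (a b : ℤ) : eqI a b = true ↔ a = b := by
  cases a with
  | ofNat m => cases b with
    | ofNat n => exact (beq_iff m n).trans (by rw [Int.ofNat.injEq])
    | negSucc n => simp [eqI]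
  | negSucc m => cases b with
    | ofNat n => simp [eqI]
    | negSucc n => exact (beq_iff m n).trans (by rw [Int.negSucc.injEq])

theorem eqV_cons (a : ℤ) (s : List ℤ) (b : ℤ) (t : List ℤ) :
    eqV (a :: s) (b :: t) = Bool.rec false (eqV s t) (eqI a b) := rfl

theorem eqV_iff : ∀ s t : List ℤ, eqV s t = true ↔ s = t
  | [], [] => by simp [eqV]
  | [], b :: t => by simp [eqV]
  | a :: s, [] => by simp [eqV]
  | a :: s, b :: t => by
    rw [eqV_cons, rec_and, Bool.and_eq_true, eqI_iff, eqV_iff s t, List.cons.injEq]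

theorem eqS_cons (a : List ℤ × List ℕ) (s : St) (b : List ℤ × List ℕ) (t : St) :
    eqS (a :: s) (b :: t)
      = Bool.rec false (Bool.rec false (eqS s t) (eqV a.1 b.1)) (eqL a.2 b.2) := rfl

theorem eqS_iff : ∀ s t : St, eqS s t = true ↔ s = t
  | [], [] => by simp [eqS]
  | [], b :: t => by simp [eqS]
  | a :: s, [] => by simp [eqS]
  | a :: s, b :: t => by
    rw [eqS_cons, rec_and, rec_and, Bool.and_eq_true, Bool.and_eq_true, eqV_iff, eqL_iff,
      eqS_iff s t, List.cons.injEq, Prod.ext_iff]
    constructor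
    · rintro ⟨h1, h2, h3⟩; exact ⟨⟨h2, h1⟩, h3⟩
    · rintro ⟨⟨h2, h1⟩, h3⟩; exact ⟨h1, h2, h3⟩

theorem addI_eq (a b : ℤ) : addI a b = a + b := by
  cases a with
  | ofNat m => cases b with
    | ofNat n => rfl
    | negSucc n =>
      show (Bool.rec (Int.negSucc (Nat.sub n m)) (Int.ofNat (Nat.sub m (Nat.succ n)))
        (Nat.ble (Nat.succ n) m) : ℤ) = _
      by_cases h : n + 1 ≤ m
      · have : Nat.ble (Nat.succ n) m = true := Nat.ble_eq_true_of_le h
        rw [this]
        show ((m - (n + 1) : ℕ) : ℤ) = (m : ℤ) + Int.negSucc n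
        rw [Int.negSucc_eq]; omega
      · have : Nat.ble (Nat.succ n) m = false := by
          rw [← Bool.not_eq_true]; intro h'; exact h (Nat.le_of_ble_eq_true h')
        rw [this]
        show Int.negSucc (n - m) = (m : ℤ) + Int.negSucc n
        rw [Int.negSucc_eq, Int.negSucc_eq]; omega
  | negSucc m => cases b with
    | ofNat n =>
      show (Bool.rec (Int.negSucc (Nat.sub m n)) (Int.ofNat (Nat.sub n (Nat.succ m)))
        (Nat.ble (Nat.succ m) n) : ℤ) = _
      by_cases h : m + 1 ≤ n
      · have : Nat.ble (Nat.succ m) n = true := Nat.ble_eq_true_of_le h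
        rw [this]
        show ((n - (m + 1) : ℕ) : ℤ) = Int.negSucc m + (n : ℤ)
        rw [Int.negSucc_eq]; omega
      · have : Nat.ble (Nat.succ m) n = false := by
          rw [← Bool.not_eq_true]; intro h'; exact h (Nat.le_of_ble_eq_true h')
        rw [this]
        show Int.negSucc (m - n) = Int.negSucc m + (n : ℤ)
        rw [Int.negSucc_eq, Int.negSucc_eq]; omega
    | negSucc n =>
      show Int.negSucc (m + n + 1) = Int.negSucc m + Int.negSucc n
      rw [Int.negSucc_eq, Int.negSucc_eq, Int.negSucc_eq]; push_cast; ring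

theorem mulI_eq (c : ℕ) (hc : c ≠ 0) (a : ℤ) : mulI c a = (c : ℤ) * a := by
  cases a with
  | ofNat m =>
    show ((c * m : ℕ) : ℤ) = (c : ℤ) * (m : ℤ)
    push_cast; ring
  | negSucc m =>
    show Int.negSucc (Nat.pred (c * (m + 1))) = (c : ℤ) * Int.negSucc m
    have h : 1 ≤ c * (m + 1) := Nat.mul_pos (Nat.pos_of_ne_zero hc) (Nat.succ_pos m)
    have h2 : ((Nat.pred (c * (m + 1)) : ℕ) : ℤ) = (c : ℤ) * ((m : ℤ) + 1) - 1 := by
      rw [Nat.pred_eq_sub_one, Nat.cast_sub h]; push_cast; ring
    rw [Int.negSucc_eq, Int.negSucc_eq, h2]; ring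

theorem negI_eq (a : ℤ) : negI a = -1 * a := by
  cases a with
  | ofNat m =>
    show (Bool.rec (Int.negSucc (Nat.pred m)) (Int.ofNat 0) (Nat.beq m 0) : ℤ) = _
    rcases m with _ | m
    · rfl
    · show Int.negSucc m = -1 * ((m + 1 : ℕ) : ℤ)
      rw [Int.negSucc_eq]; push_cast; ring
  | negSucc m =>
    show ((m + 1 : ℕ) : ℤ) = -1 * Int.negSucc m
    rw [Int.negSucc_eq]; push_cast; ring

theorem vaddF_eq : ∀ a b : List ℤ, vaddF a b = vadd a b
  | [], b => by cases b <;> rfl
  | x :: a, [] => rfl
  | x :: a, y :: b => by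
    show addI x y :: vaddF a b = (x + y) :: vadd a b
    rw [addI_eq, vaddF_eq a b]

theorem vmulF_eq (c : ℕ) (hc : c ≠ 0) : ∀ v : List ℤ, vmulF c v = vmul (c : ℤ) v
  | [] => rfl
  | x :: v => by
    show mulI c x :: vmulF c v = ((c : ℤ) * x) :: vmul (c : ℤ) v
    rw [mulI_eq c hc, vmulF_eq c hc v]

theorem vnegF_eq : ∀ v : List ℤ, vnegF v = vmul (-1) v
  | [] => rfl
  | x :: v => by
    show negI x :: vnegF v = (-1 * x) :: vmul (-1) v
    rw [negI_eq, vnegF_eq v]

theorem vzeroF_eq : ∀ v : List ℤ, vzeroF v = vzero v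
  | [] => rfl
  | x :: v => by
    show (Bool.rec false (vzeroF v) (eqI x (Int.ofNat 0)) : Bool) = (decide (x = 0) && vzero v)
    rw [rec_and, vzeroF_eq v]
    congr 1
    rw [Bool.eq_iff_iff, eqI_iff, decide_eq_true_iff]
    rfl

theorem addTF_eq (c : List ℤ) (t : List ℕ) : ∀ S : St, addTF c t S = addT c t S
  | [] => rfl
  | (c', t') :: S => by
    show (Bool.rec ((c', t') :: addTF c t S) ((vaddF c c', t') :: S) (eqL t t') : St)
      = if t = t' then (vadd c c', t') :: S else (c', t') :: addT c t S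
    by_cases h : t = t'
    · have : eqL t t' = true := (eqL_iff t t').mpr h
      rw [this, if_pos h, vaddF_eq]
    · have : eqL t t' = false := by
        rw [← Bool.not_eq_true]; intro h'; exact h ((eqL_iff t t').mp h')
      rw [this, if_neg h, addTF_eq c t S]

theorem insF_eq (n : ℕ) : ∀ t : List ℕ, insF n t = ins n t
  | [] => rfl
  | m :: t => by
    show (Bool.rec
      (Bool.rec
        (Option.rec (motive := fun _ => Option (Bool × List ℕ)) none
          (fun p => some (Bool.rec true false p.1, m :: p.2)) (insF n t))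
        none (Nat.beq n m))
      (some (false, n :: m :: t)) (Nat.ble (Nat.succ n) m) : Option (Bool × List ℕ)) = _
    rw [insF_eq n t, ins]
    by_cases h1 : n < m
    · have : Nat.ble (Nat.succ n) m = true := Nat.ble_eq_true_of_le h1
      rw [this, if_pos h1]
    · have : Nat.ble (Nat.succ n) m = false := by
        rw [← Bool.not_eq_true]; intro h'; exact h1 (Nat.le_of_ble_eq_true h')
      rw [this, if_neg h1]
      by_cases h2 : n = m
      · have : Nat.beq n m = true := (beq_iff n m).mpr h2
        rw [this, if_pos h2]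
      · have : Nat.beq n m = false := by
          rw [← Bool.not_eq_true]; intro h'; exact h2 ((beq_iff n m).mp h')
        rw [this, if_neg h2]
        cases ins n t with
        | none => rfl
        | some p => obtain ⟨s, t'⟩ := p; cases s <;> rfl

theorem xorF_eq (a b : Bool) : xorF a b = xor a b := by cases a <;> cases b <;> rfl

theorem nrmF_eq : ∀ t : List ℕ, nrmF t = nrm t
  | [] => rfl
  | n :: t => by
    show (Option.rec (motive := fun _ => Option (Bool × List ℕ)) none
      (fun p => Option.rec (motive := fun _ => Option (Bool × List ℕ)) none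
        (fun q => some (xorF p.1 q.1, q.2)) (insF n p.2)) (nrmF t)) = _
    rw [nrmF_eq t, nrm]
    cases nrm t with
    | none => rfl
    | some p =>
      obtain ⟨s, t'⟩ := p
      show (Option.rec (motive := fun _ => Option (Bool × List ℕ)) none
        (fun q => some (xorF s q.1, q.2)) (insF n t')) = _
      rw [insF_eq]
      cases h : ins n t' with
      | none => simp [h]
      | some q =>
        obtain ⟨s2, t2⟩ := q
        simp only [h]
        rw [xorF_eq]

theorem addUF_eq (c : List ℤ) (t : List ℕ) (S : St) : addUF c t S = addU c t S := by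
  unfold addUF addU
  rw [nrmF_eq]
  cases nrm t with
  | none => rfl
  | some p =>
    obtain ⟨s, t'⟩ := p
    cases s
    · exact addTF_eq c t' S
    · show addTF (vnegF c) t' S = addT (vmul (-1) c) t' S
      rw [addTF_eq, vnegF_eq]

theorem extF_eq (n : ℕ) : ∀ L : List (ℕ × ℕ × List ℕ), extF n L = L.flatMap fun x =>
      (x.1, x.2.1, n :: x.2.2) :: (x.1, x.2.1 + 1, (n + 8) :: x.2.2) ::
        (if n % 8 = 0 then [] else [(x.1 + 1, x.2.1, (n - 1) :: x.2.2)])
  | [] => rfl
  | x :: L => by
    rw [List.flatMap_cons, ← extF_eq n L]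
    show (x.1, x.2.1, n :: x.2.2) :: (x.1, x.2.1 + 1, (n + 8) :: x.2.2) ::
      (Bool.rec ((x.1 + 1, x.2.1, (n - 1) :: x.2.2) :: extF n L) (extF n L)
        (Nat.beq (n % 8) 0) : List (ℕ × ℕ × List ℕ)) = _
    by_cases h : n % 8 = 0
    · have : Nat.beq (n % 8) 0 = true := (beq_iff _ _).mpr h
      rw [this, if_pos h]; rfl
    · have : Nat.beq (n % 8) 0 = false := by
        rw [← Bool.not_eq_true]; intro h'; exact h ((beq_iff _ _).mp h')
      rw [this, if_neg h]; rfl

theorem enumF_eq : ∀ t : List ℕ, enumF t = enum t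
  | [] => rfl
  | n :: t => by
    show extF n (enumF t) = _
    rw [enumF_eq t, extF_eq, enum]

theorem addAllF_eq (j : ℕ) (c : List ℤ) : ∀ (L : List (ℕ × ℕ × List ℕ)) (S : St),
    addAllF j c L S = addAll j c L S
  | [], S => rfl
  | x :: L, S => by
    show (Bool.rec (addUF (vmulF (wt j x.1 x.2.1) c) x.2.2 (addAllF j c L S)) (addAllF j c L S)
      (Nat.beq (wt j x.1 x.2.1) 0) : St) = _
    rw [addAllF_eq j c L S, addAll]
    by_cases h : wt j x.1 x.2.1 = 0
    · have : Nat.beq (wt j x.1 x.2.1) 0 = true := (beq_iff _ _).mpr h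
      rw [this]
      simp only [h, if_true]
    · have : Nat.beq (wt j x.1 x.2.1) 0 = false := by
        rw [← Bool.not_eq_true]; intro h'; exact h ((beq_iff _ _).mp h')
      rw [this]
      simp only [h, if_false]
      rw [addUF_eq, vmulF_eq _ h]

theorem xopRawF_eq (j : ℕ) : ∀ S : St, xopRawF j S = xopRaw j S
  | [] => rfl
  | (c, t) :: S => by
    show addAllF j c (enumF t) (xopRawF j S) = addAll j c (enum t) (xopRaw j S)
    rw [xopRawF_eq j S, enumF_eq, addAllF_eq]

theorem filF_eq : ∀ S : St, filF S = S.filter fun x => !vzero x.1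
  | [] => rfl
  | x :: S => by
    show (Bool.rec (x :: filF S) (filF S) (vzeroF x.1) : St) = _
    rw [filF_eq S, vzeroF_eq, List.filter_cons]
    cases vzero x.1 <;> rfl

theorem xopF_eq (j : ℕ) (S : St) : xopF j S = xop j S := by
  unfold xopF xop
  rw [filF_eq, xopRawF_eq]

theorem xq {j : ℕ} {S S' : St} (h : eqS (xopF j S) S' = true) : xop j S = S' := by
  rw [← xopF_eq]; exact (eqS_iff _ _).mp h

end Pool.Agent.H52.O4F
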